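import Pool.Agent.Helper15.AM.GoalsG
import Pool.Agent.Helper15.RA.GoalsH
import Pool.Agent.Helper45.AM.GoalsA
import Pool.Agent.Helper45.AM.GoalsC

/-!
# Project AM: packet C2, expansion of `T_x c_g T_y` for a type `b` triple.
-/

set_option autoImplicit false

open LaurentPolynomial Pool.Agent.Helper15.RA Pool.Agent.Helper45.AM Pool.Agent.Helper15.AM

noncomputable section

namespace Pool.Agent.Helper81.AM

theorem h_c_2 (hPA : G_PA) (hPC : G_PC) (h2 : H_2) (aS : A_S) (a1 : A_1) (b1 : B_1) (b2 : B_2) (b3 : B_3)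
    (b5 : B_5) (b7 : B_7) : Pool.Agent.Helper45.AM.C_2 := by
  classical
  intro S W H _ _ _ X b x g y tp
  obtain ⟨hx, hg, hgK, hy⟩ := tp
  have hKF : X.K ⊆ X.F b := by
    intro i hi
    cases b
    · exact hi.2
    · exact hi.1
  obtain ⟨-, -, -, -, -, -, -, s8, s9, -, s11, s12, -⟩ := aS S W H X.toBase X.K
  obtain ⟨-, -, -, sc, -⟩ := aS S W H X.toBase (X.F b)
  obtain ⟨-, -, -, h24, h25, h26, -⟩ := h2 S W H X.M X.cs X.L X.wt X.D
  obtain ⟨-, -, c3, -⟩ := b1 S W H X
  obtain ⟨l1, -⟩ := b2 S W H X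
  obtain ⟨-, t2, -⟩ := b3 S W H X
  obtain ⟨g1, -⟩ := b5 S W H X
  have hxK : XR X.cs X.K x := (c3 b x).1 hx
  have hyK : XL X.cs X.K y := (c3 b y).2 hy
  have paF := (hPA S W X.M X.cs (X.F b)).2.2
  have paK := hPA S W X.M X.cs X.K
  have pcF := hPC S W X.M X.cs (X.F b)
  have pcK := hPC S W X.M X.cs X.K
  have mulT : ∀ u v, X.cs.length (u * v) = X.cs.length u + X.cs.length v →
      X.D.t u * X.D.t v = X.D.t (u * v) := X.D.mul
  -- the product of three
  have mul3 : ∀ g' ∈ par X.cs (X.F b), g' ∉ par X.cs X.K →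
      X.D.t x * X.D.t g' * X.D.t y = X.D.t (x * g' * y) := by
    intro g' h1 h3
    have e1 := l1 b x g' y ⟨hx, h1, h3, hy⟩
    have e2 := paF x hx g' h1
    rw [mulT x g' e2, mulT (x * g') y (by rw [e1, e2])]
  set p : W →₀ ℤ[T;T⁻¹] := X.D.t.repr (X.D.c g) with hp
  set r : W →₀ ℤ[T;T⁻¹] := (p.filter fun u => u ∉ par X.cs X.K).erase g with hr
  have fpos : ∀ u, u ∉ par X.cs X.K → (p.filter fun u => u ∉ par X.cs X.K) u = p u := fun u hu => by
    rw [Finsupp.filter_apply, if_pos hu]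
  have hinj : Function.Injective (fun g' : W => x * g' * y) := by
    intro u v huv
    simpa using huv
  have hrs : ∀ u ∈ r.support, u ≠ g ∧ u ∉ par X.cs X.K ∧ u ∈ par X.cs (X.F b) ∧ p u ≠ 0 ∧ r u = p u := by
    intro u hu
    have h0 : r u ≠ 0 := Finsupp.mem_support_iff.1 hu
    have hne : u ≠ g := by
      intro h
      rw [hr, h, Finsupp.erase_same] at h0
      exact h0 rfl
    rw [hr, Finsupp.erase_ne hne] at h0
    have hK : u ∉ par X.cs X.K := by
      by_contra h
      exact h0 (by rw [Finsupp.filter_apply, if_neg (by simpa using h)])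
    rw [fpos u hK] at h0
    refine ⟨hne, hK, sc g hg u h0, h0, ?_⟩
    rw [hr, Finsupp.erase_ne hne, fpos u hK]
  refine ⟨r.mapDomain (fun g' => x * g' * y), X.b.repr (X.pr X.K (X.D.c g)), ?_, ?_, ?_⟩
  · intro u hu
    rw [Finsupp.mapDomain_support_of_injective hinj, Finset.mem_image] at hu
    obtain ⟨g', hg', rfl⟩ := hu
    obtain ⟨n1, n2, n3, n4, n5⟩ := hrs g' hg'
    refine ⟨t2 b x g' y ⟨hx, n3, n2, hy⟩, ?_, ?_⟩
    · rw [l1 b x g' y ⟨hx, n3, n2, hy⟩, l1 b x g y ⟨hx, hg, hgK, hy⟩]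
      have := (h25 g g' n4).resolve_left n1
      omega
    · have := Finsupp.mapDomain_apply hinj r g'
      rw [this, n5]
      exact h26 g g' n1
  · intro k hk
    have hk0 : X.b.repr (X.pr X.K (X.D.c g)) k ≠ 0 := Finsupp.mem_support_iff.1 hk
    obtain ⟨r1, r2, r3⟩ := a1 S W H X.toBase X.K (X.F b) X.α hKF X.pgK (X.pg b) g hg k
    have hkK := r1 hk0
    refine ⟨hkK, r2, fun hne M => ?_⟩
    obtain ⟨r4, r5⟩ := r3 hne
    obtain ⟨x1, k1, hk1, hx1, e1⟩ := paK.2.1 g
    obtain ⟨k2, hk2, y2, hy2, e2⟩ := pcK.2.2.2.1 g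
    have q1 : X.eqL X.K k k1 := r4 x1 k1 hx1 hk1 e1
    have q2 : X.eqR X.K k k2 := r5 k2 y2 hy2 hk2 e2
    obtain ⟨-, v2, -, v4⟩ := b7 S W H X M
    have len1 : X.cs.length g = X.cs.length x1 + X.cs.length k1 := by
      rw [e1]
      exact paK.2.2 x1 hx1 k1 hk1
    have len2 : X.cs.length g = X.cs.length k2 + X.cs.length y2 := by
      rw [e2]
      exact pcK.2.2.2.2.1 y2 hy2 k2 hk2
    apply AC.eps_le
    · intro hge
      have w1 : X.Ge M (x * k2) := v2 x k k2 hxK hkK q2.2 hge
      have w2 : x * g = (x * k2) * y2 := by rw [e2, mul_assoc]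
      rw [w2]
      apply g1 M (x * k2) y2 _ (Or.inl w1)
      rw [← w2, paF x hx g hg, len2, paK.2.2 x hxK k2 hk2]
      ring
    · intro hge
      have w1 : X.Ge M (k1 * y) := v4 y k k1 hyK hkK q1.2 hge
      have w2 : g * y = x1 * (k1 * y) := by rw [e1, mul_assoc]
      rw [w2]
      apply g1 M x1 (k1 * y) _ (Or.inr w1)
      rw [← w2, pcF.2.2.2.2.1 y hy g hg, len1, pcK.2.2.2.2.1 y hyK k1 hk1]
      ring
  · -- the identity
    have hsplit : X.D.c g = X.pr X.K (X.D.c g) + (X.D.t g + r.sum fun u q => q • X.D.t u) := by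
      apply X.D.t.repr.injective
      ext1 z
      have hz2 : X.D.t.repr (r.sum fun u q => q • X.D.t u) = r := by
        have := X.D.t.repr_linearCombination r
        rwa [Finsupp.linearCombination_apply] at this
      rw [map_add, map_add, hz2, X.D.t.repr_self, Finsupp.add_apply, Finsupp.add_apply]
      by_cases hzK : z ∈ par X.cs X.K
      · rw [s12 (X.D.c g) z hzK]
        have hzg : z ≠ g := fun h => hgK (h ▸ hzK)
        rw [Finsupp.single_eq_of_ne hzg]
        have : r z = 0 := by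
          by_contra h
          exact (hrs z (Finsupp.mem_support_iff.2 h)).2.1 hzK
        rw [this, add_zero, add_zero]
      · have h0 : X.D.t.repr (X.pr X.K (X.D.c g)) z = 0 := by
          by_contra h
          exact hzK (s11 (X.D.c g) z h).1
        rw [h0, zero_add]
        by_cases hzg : z = g
        · subst hzg
          rw [Finsupp.single_eq_same, hr, Finsupp.erase_same, add_zero]
          exact h24 z
        · rw [Finsupp.single_eq_of_ne hzg, zero_add, hr, Finsupp.erase_ne hzg, fpos z hzK]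
    have e1 : X.B x g y = X.D.t x * X.pr X.K (X.D.c g) * X.D.t y +
        (X.D.t (x * g * y) + X.D.t x * (r.sum fun u q => q • X.D.t u) * X.D.t y) := by
      rw [← mul3 g hg hgK]
      unfold AC.B
      conv_lhs => rw [hsplit]
      simp only [mul_add, add_mul]
    have e2 : X.D.t x * (r.sum fun u q => q • X.D.t u) * X.D.t y =
        (r.mapDomain (fun g' => x * g' * y)).sum fun u p => p • X.D.t u := by
      rw [Finsupp.sum_mapDomain_index (by simp) (fun u m1 m2 => add_smul _ _ _)]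
      rw [Finsupp.sum, Finsupp.sum, Finset.mul_sum, Finset.sum_mul]
      refine Finset.sum_congr rfl fun u hu => ?_
      obtain ⟨n1, n2, n3, n4, n5⟩ := hrs u hu
      rw [mul_smul_comm, smul_mul_assoc, mul3 u n3 n2]
    have e3 : X.D.t x * X.pr X.K (X.D.c g) * X.D.t y =
        (X.b.repr (X.pr X.K (X.D.c g))).sum fun k p => p • X.B x k y := by
      have h0 : X.pr X.K (X.D.c g) = (X.b.repr (X.pr X.K (X.D.c g))).sum fun k p => p • X.D.c k := by
        conv_lhs => rw [← X.b.linearCombination_repr (X.pr X.K (X.D.c g)), Finsupp.linearCombination_apply]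
        simp only [X.hb]
      conv_lhs => rw [h0]
      rw [Finsupp.sum, Finsupp.sum, Finset.mul_sum, Finset.sum_mul]
      refine Finset.sum_congr rfl fun u hu => ?_
      rw [mul_smul_comm, smul_mul_assoc]
      rfl
    rw [e1, e2, e3]
    abel

end Pool.Agent.Helper81.AM
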